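import Pool.Agent.Helper7.AF.Chow

/-!
# Beilinson–Soulé vanishing for complex varieties is decided by one ample field
-/

set_option autoImplicit false

namespace Pool.Agent.Results.MP_d72c81_ag.OneAmpleField

open Cardinal Pool.Agent.Q26.SP.Point Pool.Agent.Helper7.AF

/-- Let `C` be a class of smooth, separated, quasi-compact complex schemes which contains
`Spec ℂ`, such as the smooth projective varieties. Let `K` be an ample (large) field of
characteristic zero (`K` is existentially closed in `K((t))`; for example a pseudo algebraically
closed, Henselian or real closed field) of infinite transcendence degree `κ` over `ℚ`, and let `L`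
be any field containing `K`. Then (`DecidesVarieties`):

1. the following are equivalent: `CHʲ(X, 2j - k)_ℚ = 0` for all `X` in `C`, all `j` and all
   `k < 0`; `Hⁱ(F, ℚ(n)) = 0` for all fields `F` of characteristic zero, all `n` and all `i < 0`;
   `H⁻¹(L, ℚ(n)) = 0` for all `n`; the dimension of `H⁻¹(L, ℚ(n))` is less than `κ` for all `n`;
2. for all `n` and `i < 0` the following are equivalent: `CHⁿ(Spec ℂ, 2n - i)_ℚ = 0`;
   `Hⁱ(F, ℚ(n)) = 0` for all fields `F` of characteristic zero; `Hⁱ(L, ℚ(n)) = 0`; the dimension
   of `Hⁱ(L, ℚ(n))` is less than `κ`;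
3. if `X` is in `C`, `k < 0` and `CHʲ(X, 2j - k)_ℚ ≠ 0`, then there is a point of `X`, of
   codimension `c`, such that the dimensions of `Hᵏ⁻²ᶜ(L, ℚ(j - c))` and of
   `H⁻¹(L, ℚ(j + c - 1 - k))` are at least `κ`.

The same holds, with the cardinality of `K` in place of `κ`, if `K` is a field of characteristic
zero which is complete with respect to a nontrivial absolute value. -/
theorem result (M : HigherChowDescent) (C : VarietyClass) :
    (∀ (K L : Type) [Field K] [Algebra ℚ K] [Field L] [Algebra K L], Ample K →
      ℵ₀ ≤ Algebra.trdeg ℚ K → DecidesVarieties M C L (Algebra.trdeg ℚ K)) ∧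
    ∀ (K L : Type) [NontriviallyNormedField K] [CompleteSpace K] [CharZero K] [Field L]
      [Algebra K L], DecidesVarieties M C L #K :=
  ⟨fun K L _ _ _ _ hK hκ => varieties_ample M C K L hK hκ,
    fun K L _ _ _ _ _ => varieties_complete M C K L⟩

end Pool.Agent.Results.MP_d72c81_ag.OneAmpleField
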