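import Pool.Agent.Helper24.SE.Fin
import Pool.Agent.Helper24.SE.Rat
import Pool.Agent.Helper24.KF.NoBase

/-!
# The Beilinson–Soulé vanishing for complex varieties and exceptional sets with a power saving

Let `C` be the category of Chow motives over `ℚ` with rational coefficients. For a motive `N` and `m ≥ 0` let
`H m N = H^{-m}(N, ℚ(0))`, an additive functor of `N`. For `N = h(Y)(j)`, `Y` smooth and projective over `ℚ`, this
is `CH^j(Y, m)_ℚ = H^{2j-m}(Y, ℚ(j))`.

For `j, n, d` let `Van j n d` be the statement that `CH^j(X, n)_ℚ = 0` for all smooth projective varieties `X` over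
subfields `E` of the complex numbers for which `dim X + trdeg(E/ℚ) ≤ d`, and let `Cpx j n` be the statement that
`CH^j(X, n)_ℚ = 0` for all smooth projective complex varieties `X`. Question Q1 is `Cpx j n` for all `j` and all
`n > 2j` (`n = 2j - k` with `k < 0`); for `j ≤ 1` this is known.

For a separated scheme `X` of finite type over `ℚ` let `W(X)` be its weight complex with compact supports
(Gillet, Soulé), a bounded complex of Chow motives. For `F ∈ ℤ[x_1, …, x_r]` let `D(F) : F ≠ 0` be the open subset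
of the affine space over `ℚ`. We call `F` an exception for `n` and `j` if it is false that the complex
`H n (W(D(F))(j))` has cohomology of finite total dimension and Euler characteristic zero. Let `Box(D, B)` be the
finite set of the `F` of degree at most `D` in each variable for which the sum of the absolute values of the
coefficients is at most `B`, and `Exc(D, B)` the set of the exceptions in it. The exceptional sets have a power
saving, if for some `ε > 0` there are infinitely many `D`, and for these infinitely many `B`, with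
`#Exc(D, B) ≤ #Box(D, B) ^ (1 - ε)`.

**Theorem.** (1) Let `d ≥ 0` and `J` be given. Then `CH^j(X, n)_ℚ = 0` for all smooth projective `X` over fields
`E ⊂ ℂ` with `dim X + trdeg(E/ℚ) ≤ d`, all `1 ≤ j ≤ J` and all `n > 2j`, if and only if for all `1 ≤ j ≤ J` and
`n > 2j` the exceptional sets for `n`, `j` in `d + 1` variables have a power saving.

(2) `CH^j(X, n)_ℚ = 0` for all smooth projective complex varieties `X`, all `1 ≤ j ≤ J` and all `n > 2j`, if and
only if for all `1 ≤ j ≤ J` and `n > 2j` the exceptional sets in `r` variables have a power saving, for infinitely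
many `r`. So Q1 is true if and only if this is so for all `j ≥ 1` and `n > 2j`.

(3) A zero–one law: let `j ≥ 1` and `n > 2j`. If there is one exception in `r` variables, then for every
`ε > 0`, for all large `D` and all large `B` (depending on `D`), there are more than `#Box(D, B) ^ (1 - ε)`
exceptions in the box.

(4) If the hypersurfaces `F = 0` and `G = 0` in the affine space over `ℚ` are disjoint and `F` is an exception
(`j ≥ 1`, `n > 2j`), then `G` or `F G` is an exception.
-/

set_option autoImplicit false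
set_option linter.checkUnivs false

open CategoryTheory Limits AlgebraicGeometry Filter Pool.Agent.Y116.UV Pool.Agent.Q282.UM
  Pool.Agent.Q282.UK Pool.Agent.Helper62.EC Pool.Agent.Helper24.KD Pool.Agent.Helper24.KF

open Pool.Agent.Helper24.KG (Zero ZeroDim ZeroAll HasChi euler)

open Pool.Agent.Helper24.SE (Box Exc Saving)

universe v u

namespace Pool.Agent.Results.MP_d72c81_ag.PowerSaving

/-- The complement `D(F) : F ≠ 0` in the affine space over `ℚ`. -/
noncomputable def princ {r : ℕ} (F : MvPolynomial (Fin r) ℤ) : Sch ℚ :=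
  aff ℚ (Localization.Away (MvPolynomial.map (algebraMap ℤ ℚ) F))

/-- The category `C` of Chow motives over `ℚ`, with

* the motives `h(X)`, the Tate twists `N(j)` and the weight complexes `W(X)` (`Weights`);
* the functors `H n`;
* the statements `Van j n d` and `Cpx j n`. -/
structure Mot where
  C : Type u
  [cat : Category.{v} C]
  [pre : Preadditive C]
  [zero : HasZeroObject C]
  [bin : HasBinaryBiproducts C]
  [fin : HasFiniteBiproducts C]
  D : Weights ℚ C
  H : ℕ → C ⥤ ModuleCat.{0} ℚ
  [additive : ∀ m, (H m).Additive]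
  Van : ℤ → ℕ → ℕ → Prop
  Cpx : ℤ → ℕ → Prop

attribute [instance] Mot.cat Mot.pre Mot.zero Mot.bin Mot.fin Mot.additive

/-- `CH^j(X, n)_ℚ = 0` for `1 ≤ j ≤ J` and `n > 2 j`, `dim X + trdeg(E/ℚ) ≤ d`. -/
def VanUpTo (M : Mot.{v, u}) (d : ℕ) (J : ℤ) : Prop :=
  ∀ (j : ℤ) (n : ℕ), 1 ≤ j → j ≤ J → 2 * j < n → M.Van j n d

/-- `CH^j(X, n)_ℚ = 0` for `1 ≤ j ≤ J` and `n > 2 j`, for all complex `X`. -/
def CpxUpTo (M : Mot.{v, u}) (J : ℤ) : Prop :=
  ∀ (j : ℤ) (n : ℕ), 1 ≤ j → j ≤ J → 2 * j < n → M.Cpx j n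

/-- The known properties.

* `weight`: the weight complexes;
* `low`: `CH^j(X, n)_ℚ = 0` for `j ≤ 0 < n`;
* `points`: `CH^j(F, n)_ℚ = 0` for `j ≥ 1`, `n > 2 j` and number fields `F` (Borel);
* `fields`: the reduction of the smooth projective varieties over the fields `E` with `dim + trdeg ≤ d` to the
  smooth projective schemes over `ℚ` of dimension at most `d` (localisation, coniveau, continuity);
* `complex`: the reduction of the complex varieties to the fields `E` of finite transcendence degree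
  (continuity, and injectivity of the extension of the base field). -/
structure Known (M : Mot.{v, u}) : Prop where
  weight : IsWeightComplex M.D
  low : ∀ (n : ℕ) (j : ℤ), 1 ≤ n → j ≤ 0 → ZeroAll (M.H n) M.D j
  points : ∀ (n : ℕ) (j : ℤ), 1 ≤ j → 2 * j < n → ZeroDim (M.H n) M.D j 0
  fields : ∀ (d : ℕ) (J : ℤ), VanUpTo M d J ↔
    ∀ (n : ℕ) (j : ℤ), 1 ≤ j → j ≤ J → 2 * j < n → ZeroDim (M.H n) M.D j d
  complex : ∀ J : ℤ, CpxUpTo M J ↔ ∀ d : ℕ, VanUpTo M d J

/-- The statement `P n j` for all relevant `n` and `j`. -/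
def Each (J : ℤ) (P : ℕ → ℤ → Prop) : Prop := ∀ (n : ℕ) (j : ℤ), 1 ≤ j → j ≤ J → 2 * j < n → P n j

/-- `F` is an exception for `n` and `j`: it is false that the Euler characteristic of `H n (W(D(F))(j))` is
defined and zero. -/
def Exception (M : Mot.{v, u}) (n : ℕ) (j : ℤ) {r : ℕ} (F : MvPolynomial (Fin r) ℤ) : Prop :=
  ¬ (HasChi (M.H n) M.D j (princ F) ∧ euler (M.H n) M.D j (princ F) = 0)

variable {M : Mot.{v, u}}

variable (M) in
/-- The Euler characteristic is defined and is zero. -/
def P (m : ℕ) (j : ℤ) (X : Sch ℚ) : Prop := QT (TOne (M.H m)) M.D j X 0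

lemma exc_eq (m : ℕ) (j : ℤ) (r : ℕ) : (Exception M m j : MvPolynomial (Fin r) ℤ → Prop) =
    fun F => ¬ P M m j (Pool.Agent.Helper24.KE.U (Pool.Agent.Helper24.KE.toQ F)) := by
  funext F
  exact propext (not_congr tOne_iff.symm)

section weights

variable (hW : IsWeightComplex M.D)

include hW

lemma cls (m : ℕ) (j : ℤ) : Cls True (P M m j) := (dfcT (tOne _) hW j).cls

lemma exact_dim {m : ℕ} {j : ℤ} {d : ℕ} (h : ZeroDim (M.H m) M.D j d) (X : Sch ℚ)
    (hX : FT True X) (hd : topologicalKrullDim X.left ≤ d) : P M m j X :=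
  one_zero hW (fun Y hY hYd => h Y hY hYd) X hX hd

lemma zero_of {m : ℕ} {j : ℤ} {X : Sch ℚ} (hX : IsSmoothProjective X) (h : P M m j X) :
    Zero (M.H m) M.D j X := by
  obtain ⟨h2, h3⟩ := one_inZero.mp (projT (tOne _) hW hX h)
  have h4 : Subsingleton ((M.H m).obj ((M.D.tw j).obj (M.D.h X))) :=
    Module.finrank_zero_iff.mp (by exact_mod_cast h3)
  exact h4

end weights

variable (hM : Known M)

include hM

lemma space {m : ℕ} {j : ℤ} (hj : 1 ≤ j) (hjm : 2 * j < m) (r : ℕ) :
    P M m j (aff ℚ (MvPolynomial (Fin r) ℚ)) := by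
  refine spaceT_one (tOne _) hM.weight ?_
  have h0 : topologicalKrullDim (aff ℚ ℚ).left ≤ (0 : ℕ) := by
    rw [Pool.Agent.Z125.UN.topDim_aff, ringKrullDim_eq_zero_of_field]
    exact le_rfl
  rcases le_or_gt (j - r) 0 with h1 | h1
  · exact exact_dim hM.weight (fun X hX _ => hM.low m _ (by omega) h1 X hX) _ (ft_aff True) h0
  · exact exact_dim hM.weight (hM.points m _ (by omega) (by omega)) _ (ft_aff True) h0

theorem dim_iff {m : ℕ} {j : ℤ} (hj : 1 ≤ j) (hjm : 2 * j < m) (d : ℕ) :
    ZeroDim (M.H m) M.D j d ↔ Saving (r := d + 1) (Exception M m j) := by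
  rw [exc_eq, ← Pool.Agent.Helper24.SE.saving_dim (cls hM.weight m j) (space hM hj hjm) d]
  exact ⟨fun h X hX hd => exact_dim hM.weight h X hX hd,
    fun h X hX hd => zero_of hM.weight hX (h X (ft_projective hX) hd)⟩

theorem all_iff {m : ℕ} {j : ℤ} (hj : 1 ≤ j) (hjm : 2 * j < m) :
    (∀ d, ZeroDim (M.H m) M.D j d) ↔
      ∃ᶠ r : ℕ in atTop, Saving (r := r) (Exception M m j) := by
  constructor
  · intro h
    refine Frequently.of_forall fun r => ⟨1, one_pos, Frequently.of_forall fun D =>
      Frequently.of_forall fun B => ?_⟩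
    have h1 : Exc (r := r) (Exception M m j) D B = ∅ := by
      rw [Set.eq_empty_iff_forall_notMem, exc_eq]
      intro F hF
      obtain ⟨N, hN⟩ := Pool.Agent.Helper24.KZ.exists_dim_aff (k := ℚ)
        (Localization.Away (Pool.Agent.Helper24.KE.toQ F))
      exact hF.2 (exact_dim hM.weight (h N) _ (ft_aff True) hN)
    rw [h1, Set.ncard_empty, Nat.cast_zero]
    exact Real.rpow_nonneg (Nat.cast_nonneg _) _
  · intro h d
    obtain ⟨r, hr, hrd⟩ := (h.and_eventually (eventually_ge_atTop (d + 1))).exists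
    obtain ⟨d', rfl⟩ : ∃ d', r = d' + 1 := ⟨r - 1, by omega⟩
    have h1 := (dim_iff hM hj hjm d').mpr hr
    exact fun X hX hd => h1 X hX (hd.trans (by exact_mod_cast (by omega : d ≤ d')))

theorem full {m : ℕ} {j : ℤ} (hj : 1 ≤ j) (hjm : 2 * j < m) {r : ℕ} {G : MvPolynomial (Fin r) ℤ}
    (hG : Exception M m j G) {ε : ℝ} (hε : 0 < ε) : ∀ᶠ D : ℕ in atTop, ∀ᶠ B : ℕ in atTop,
      ((Box r D B).ncard : ℝ) ^ (1 - ε) < ((Exc (r := r) (Exception M m j) D B).ncard : ℝ) := by
  rw [exc_eq] at hG ⊢
  exact Pool.Agent.Helper24.SE.full_rat (cls hM.weight m j) (space hM hj hjm) hG hε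

theorem disjoint {m : ℕ} {j : ℤ} (hj : 1 ≤ j) (hjm : 2 * j < m) {r : ℕ}
    (F G : MvPolynomial (Fin r) ℤ)
    (hFG : Ideal.span {MvPolynomial.map (algebraMap ℤ ℚ) G} ⊔
      Ideal.span {MvPolynomial.map (algebraMap ℤ ℚ) F} = ⊤)
    (hF : Exception M m j F) : Exception M m j G ∨ Exception M m j (F * G) := by
  rw [exc_eq] at hF ⊢
  refine Pool.Agent.Helper24.SE.disj_compl (cls hM.weight m j) (space hM hj hjm r)
    (MvPolynomial.map (algebraMap ℤ ℚ) F)
    (MvPolynomial.map (algebraMap ℤ ℚ) G) hFG hF |>.imp id fun h => ?_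
  have h1 : Pool.Agent.Helper24.KE.toQ (F * G) = MvPolynomial.map (algebraMap ℤ ℚ) F *
      MvPolynomial.map (algebraMap ℤ ℚ) G := map_mul _ _ _
  beta_reduce
  rw [h1]
  exact h

omit hM

/-- **The Beilinson–Soulé vanishing for complex varieties and exceptional sets with a power saving.** See
the explanations above. -/
theorem result (M : Mot.{v, u}) (hM : Known M) :
    -- (1) one dimension
    (∀ (d : ℕ) (J : ℤ), VanUpTo M d J ↔
      Each J fun n j => Saving (r := d + 1) (Exception M n j)) ∧
    -- (2) complex varieties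
    (∀ J : ℤ, CpxUpTo M J ↔
      Each J fun n j => ∃ᶠ r : ℕ in atTop, Saving (r := r) (Exception M n j)) ∧
    -- (3) the zero-one law
    (∀ (n : ℕ) (j : ℤ), 1 ≤ j → 2 * j < n → ∀ (r : ℕ) (G : MvPolynomial (Fin r) ℤ),
      Exception M n j G → ∀ ε : ℝ, 0 < ε → ∀ᶠ D : ℕ in atTop, ∀ᶠ B : ℕ in atTop,
        ((Box r D B).ncard : ℝ) ^ (1 - ε) <
          ((Exc (r := r) (Exception M n j) D B).ncard : ℝ)) ∧
    -- (4) disjoint hypersurfaces
    ∀ (n : ℕ) (j : ℤ), 1 ≤ j → 2 * j < n → ∀ (r : ℕ) (F G : MvPolynomial (Fin r) ℤ),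
      Ideal.span {MvPolynomial.map (algebraMap ℤ ℚ) G} ⊔
        Ideal.span {MvPolynomial.map (algebraMap ℤ ℚ) F} = ⊤ →
      Exception M n j F → Exception M n j G ∨ Exception M n j (F * G) := by
  refine ⟨fun d J => ?_, fun J => (hM.complex J).trans ⟨fun h n j hj hjJ hjn => ?_, fun h d => ?_⟩,
    fun n j hj hjn r G hG ε hε => full hM hj hjn hG hε,
    fun n j hj hjn r F G hFG hF => disjoint hM hj hjn F G hFG hF⟩
  · refine (hM.fields d J).trans ?_
    exact forall₂_congr fun m j => forall₃_congr fun hj _ hjm => dim_iff hM hj hjm d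
  · exact (all_iff hM hj hjn).mp fun d => (hM.fields d J).mp (h d) n j hj hjJ hjn
  · exact (hM.fields d J).mpr fun n j hj hjJ hjn => (all_iff hM hj hjn).mpr (h n j hj hjJ hjn) d

end Pool.Agent.Results.MP_d72c81_ag.PowerSaving
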