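import Pool.Agent.Helper24.SE.Fin
import Pool.Agent.Helper7.UT.Main

/-!
# The Beilinson–Soulé vanishing for complex varieties and unions of two affine spaces

Let `C` be the category of Chow motives over `ℚ` with rational coefficients. For a motive `N` and `m ≥ 0` let
`H m N = H^{-m}(N, ℚ(0))`, an additive functor of `N`. For `N = h(Y)(j)`, `Y` smooth and projective over `ℚ`, this
is `CH^j(Y, m)_ℚ = H^{2j-m}(Y, ℚ(j))`.

For `j, n, d` let `Van j n d` be the statement that `CH^j(X, n)_ℚ = 0` for all smooth projective varieties `X` over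
subfields `E` of the complex numbers for which `dim X + trdeg(E/ℚ) ≤ d`, and let `Cpx j n` be the statement that
`CH^j(X, n)_ℚ = 0` for all smooth projective complex varieties `X`. Question Q1 is `Cpx j n` for all `j` and all
`n > 2j` (`n = 2j - k` with `k < 0`); for `j ≤ 1` this is known.

For a separated scheme `X` of finite type over `ℚ` let `W(X)` be its weight complex with compact supports
(Gillet, Soulé), a bounded complex of Chow motives. For a polynomial `f` in `x_1, …, x_N` let `S_f` be the scheme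
`t ^ 2 - t = y f(x)` over `ℚ` (`dbl f`), the coordinates being `x_1, …, x_N, y, t`, and let `V_f` be the
hypersurface `f = 0` (`hyper f`).

**Theorem.** (1) `S_f` is a smooth affine variety and the union of two open subsets which are isomorphic to the
affine space of dimension `N + 1`.

(2) Let `j ≥ 1` and `n > 2j`. The complex `H n (W(S_f)(j+1))` is exact if and only if `H n (W(V_f)(j))` is. Its
cohomology has finite total dimension if and only if the one of `H n (W(V_f)(j))` has, and then the Euler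
characteristics are equal.

(3) Let `d ≥ 0` and `J` be given. The following are equivalent: `CH^j(X, n)_ℚ = 0` for all smooth projective `X` over
fields `E ⊂ ℂ` with `dim X + trdeg(E/ℚ) ≤ d`, all `1 ≤ j ≤ J` and all `n > 2j`; for all these `j` and `n` the
complex `H n (W(S_F)(j+1))` is exact for all `F ∈ ℚ[x_1, …, x_(d+1)]`; for all these `j` and `n` the Euler
characteristic of `H n (W(S_F)(j+1))` is defined and is `o(size F)` for `F ∈ ℤ[x_1, …, x_(d+1)]`; for all these `j`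
and `n` there is a `κ ≥ 1` such that it is defined and `o((size F) ^ κ)` in `d + κ` variables, or bounded from one
side in this way in `d + κ` and in `d + κ + 1` variables.

(4) `CH^j(X, n)_ℚ = 0` for all smooth projective complex varieties `X`, all `1 ≤ j ≤ J` and all `n > 2j`, if and only
if for all these `j` and `n` the complex `H n (W(S_F)(j+1))` is exact for all `F` in any number of variables, and if
and only if for all these `j` and `n` and all `s`, for all large `r`, the Euler characteristic is defined and at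
most `o((size F) ^ (r - s))` for `F ∈ ℤ[x_1, …, x_r]`; the same for the negative of the Euler characteristic.
-/

set_option autoImplicit false
set_option linter.checkUnivs false

open CategoryTheory Limits AlgebraicGeometry Filter Pool.Agent.Y116.UV Pool.Agent.Q282.UM
  Pool.Agent.Q282.UK Pool.Agent.Helper62.EC Pool.Agent.Helper24.KD Pool.Agent.Helper24.KF

open Pool.Agent.Helper24.KG (Zero ZeroDim ZeroAll HasChi euler)

open Pool.Agent.Helper95.WC (hyper dbl addOne)

open Pool.Agent.Helper24.SE (Acy)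

universe v u

namespace Pool.Agent.Results.MP_d72c81_ag.UnionsOfTwoAffineSpaces

/-- The sum of the absolute values of the coefficients. -/
def norm {r : ℕ} (F : MvPolynomial (Fin r) ℤ) : ℕ := ∑ s ∈ F.support, (F.coeff s).natAbs

/-- The size `deg F + log ‖F‖ / log (log ‖F‖ + 3)`. -/
noncomputable def size {r : ℕ} (F : MvPolynomial (Fin r) ℤ) : ℝ :=
  F.totalDegree + Real.log (norm F) / Real.log (Real.log (norm F) + 3)

/-- The polynomial with rational coefficients. -/
noncomputable def rat {r : ℕ} (F : MvPolynomial (Fin r) ℤ) : MvPolynomial (Fin r) ℚ :=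
  MvPolynomial.map (algebraMap ℤ ℚ) F

/-- The category `C` of Chow motives over `ℚ`, with

* the motives `h(X)`, the Tate twists `N(j)` and the weight complexes `W(X)` (`Weights`);
* the functors `H n`;
* the statements `Van j n d` and `Cpx j n`. -/
structure Mot where
  C : Type u
  [cat : Category.{v} C]
  [pre : Preadditive C]
  [zero : HasZeroObject C]
  [bin : HasBinaryBiproducts C]
  [fin : HasFiniteBiproducts C]
  D : Weights ℚ C
  H : ℕ → C ⥤ ModuleCat.{0} ℚ
  [additive : ∀ m, (H m).Additive]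
  Van : ℤ → ℕ → ℕ → Prop
  Cpx : ℤ → ℕ → Prop

attribute [instance] Mot.cat Mot.pre Mot.zero Mot.bin Mot.fin Mot.additive

/-- `CH^j(X, n)_ℚ = 0` for `1 ≤ j ≤ J` and `n > 2 j`, `dim X + trdeg(E/ℚ) ≤ d`. -/
def VanUpTo (M : Mot.{v, u}) (d : ℕ) (J : ℤ) : Prop :=
  ∀ (j : ℤ) (n : ℕ), 1 ≤ j → j ≤ J → 2 * j < n → M.Van j n d

/-- `CH^j(X, n)_ℚ = 0` for `1 ≤ j ≤ J` and `n > 2 j`, for all complex `X`. -/
def CpxUpTo (M : Mot.{v, u}) (J : ℤ) : Prop :=
  ∀ (j : ℤ) (n : ℕ), 1 ≤ j → j ≤ J → 2 * j < n → M.Cpx j n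

/-- The known properties.

* `weight`: the weight complexes;
* `low`: `CH^j(X, n)_ℚ = 0` for `j ≤ 0 < n`;
* `points`: `CH^j(F, n)_ℚ = 0` for `j ≥ 1`, `n > 2 j` and number fields `F` (Borel);
* `fields`: the reduction of the smooth projective varieties over the fields `E` with `dim + trdeg ≤ d` to the
  smooth projective schemes over `ℚ` of dimension at most `d` (localisation, coniveau, continuity);
* `complex`: the reduction of the complex varieties to the fields `E` of finite transcendence degree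
  (continuity, and injectivity of the extension of the base field). -/
structure Known (M : Mot.{v, u}) : Prop where
  weight : IsWeightComplex M.D
  low : ∀ (n : ℕ) (j : ℤ), 1 ≤ n → j ≤ 0 → ZeroAll (M.H n) M.D j
  points : ∀ (n : ℕ) (j : ℤ), 1 ≤ j → 2 * j < n → ZeroDim (M.H n) M.D j 0
  fields : ∀ (d : ℕ) (J : ℤ), VanUpTo M d J ↔
    ∀ (n : ℕ) (j : ℤ), 1 ≤ j → j ≤ J → 2 * j < n → ZeroDim (M.H n) M.D j d
  complex : ∀ J : ℤ, CpxUpTo M J ↔ ∀ d : ℕ, VanUpTo M d J

/-- The statement `P n j` for all relevant `n` and `j`. -/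
def Each (J : ℤ) (P : ℕ → ℤ → Prop) : Prop := ∀ (n : ℕ) (j : ℤ), 1 ≤ j → j ≤ J → 2 * j < n → P n j

/-- The complex `H n (W(X)(j))` is exact. -/
def Exact (M : Mot.{v, u}) (n : ℕ) (j : ℤ) (X : Sch ℚ) : Prop :=
  Acy (M.H n) (onHK (M.D.tw j) (M.D.W X))

/-- The Euler characteristics of `H n (W(S_F)(j+1))` are defined and `R χ ≤ o((size F)^κ)`, for
`F ∈ ℤ[x_1, …, x_r]`; `R c` is `|c|`, `c` or `-c`. -/
def Bound (M : Mot.{v, u}) (R : ℤ → ℤ) (n : ℕ) (j : ℤ) (r κ : ℕ) : Prop :=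
  ∀ ε : ℝ, 0 < ε → ∃ B : ℝ, ∀ F : MvPolynomial (Fin r) ℤ,
    HasChi (M.H n) M.D (j + 1) (dbl (rat F)) ∧
      (R (euler (M.H n) M.D (j + 1) (dbl (rat F))) : ℝ) ≤ ε * size F ^ κ + B

/-- `X` is a smooth affine scheme of finite type, and the union of two open subschemes which are
isomorphic to the affine space of dimension `N`. -/
structure IsTwoSpaces (N : ℕ) (X : Sch ℚ) : Prop where
  ft : FT True X
  affine : IsAffine X.left
  smooth : Smooth X.hom
  glued : ∃ j₁ j₂ : aff ℚ (MvPolynomial (Fin N) ℚ) ⟶ X, IsOpenImmersion j₁.left ∧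
    IsOpenImmersion j₂.left ∧ Set.range j₁.left ∪ Set.range j₂.left = Set.univ

lemma two_spaces {N : ℕ} (f : MvPolynomial (Fin N) ℚ) : IsTwoSpaces (N + 1) (dbl f) where
  ft := ft_aff True
  affine := (inferInstance : IsAffine (Spec (CommRingCat.of (Pool.Agent.Helper62.DB.Db f))))
  smooth := Pool.Agent.Helper62.DB.smooth0 f (addOne ℚ N)
  glued := Pool.Agent.Helper62.DB.two_spaces0 f (addOne ℚ N)

variable {M : Mot.{v, u}}

variable (M) in
/-- The Euler characteristic is defined and is `c`. -/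
def Q (m : ℕ) (j : ℤ) : Sch ℚ → ℤ → Prop := QT (TOne (M.H m)) M.D j

lemma Q_iff (m : ℕ) (j : ℤ) (X : Sch ℚ) (c : ℤ) :
    Q M m j X c ↔ HasChi (M.H m) M.D j X ∧ euler (M.H m) M.D j X = c := tOne_iff

section weights

variable (hW : IsWeightComplex M.D)

include hW

lemma dfc (m : ℕ) (j : ℤ) : Pool.Agent.Helper24.KE.Dfc True (Q M m j) := dfcT (tOne _) hW j

lemma exact_dim {m : ℕ} {j : ℤ} {d : ℕ} (h : ZeroDim (M.H m) M.D j d) (X : Sch ℚ)
    (hX : FT True X) (hd : topologicalKrullDim X.left ≤ d) : Q M m j X 0 :=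
  one_zero hW (fun Y hY hYd => h Y hY hYd) X hX hd

lemma zero_of {m : ℕ} {j : ℤ} {X : Sch ℚ} (hX : IsSmoothProjective X) (h : Q M m j X 0) :
    Zero (M.H m) M.D j X := by
  obtain ⟨h2, h3⟩ := one_inZero.mp (projT (tOne _) hW hX h)
  have h4 : Subsingleton ((M.H m).obj ((M.D.tw j).obj (M.D.h X))) :=
    Module.finrank_zero_iff.mp (by exact_mod_cast h3)
  exact h4

/-- From the smooth projective schemes of dimension at most `d` to all schemes of dimension at most `d`. -/
lemma acy_dim {m : ℕ} {j : ℤ} {d : ℕ} (h : ZeroDim (M.H m) M.D j d) (X : Sch ℚ)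
    (hX : FT True X) (hd : topologicalKrullDim X.left ≤ d) : Exact M m j X := by
  obtain ⟨K, _, e, hK⟩ := hW.terms X hX d hd
  refine Pool.Agent.Helper24.SE.acy_iso (M.H m) ⟨((M.D.tw j).mapHomotopyCategory
      (ComplexShape.up ℤ)).mapIso e.some.symm⟩ ?_
  refine Pool.Agent.Helper24.SE.acy_terms (M.H m) (((M.D.tw j).mapHomologicalComplex
      (ComplexShape.up ℤ)).obj K) fun i => ?_
  refine Pool.Agent.Helper24.SE.sumOf_zero (M.D.tw j ⋙ M.H m) ?_ (hK i)
  rintro N ⟨Y, a1, a2, ⟨e⟩⟩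
  have h1 : Subsingleton ((M.D.tw j ⋙ M.H m).obj (M.D.h Y)) := h Y a1 a2
  exact (ModuleCat.isZero_of_subsingleton _).of_iso ((M.D.tw j ⋙ M.H m).mapIso e.symm)

end weights

/-- Exact complexes have Euler characteristic zero. -/
lemma q_of_exact {m : ℕ} {j : ℤ} {X : Sch ℚ} (h : Exact M m j X) : Q M m j X 0 := by
  rw [Q_iff]
  have h1 : ∀ n : ℤ, Subsingleton (Hn (M.H m) n (onHK (M.D.tw j) (M.D.W X))) := fun n =>
    ModuleCat.subsingleton_of_isZero (h n)
  have h2 : ∀ n : ℤ, Module.finrank ℚ (Hn (M.H m) n (onHK (M.D.tw j) (M.D.W X))) = 0 := fun n => by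
    have := h1 n
    exact Module.finrank_zero_of_subsingleton
  refine ⟨⟨fun n => ?_, ?_⟩, ?_⟩
  · have := h1 n
    exact Module.Finite.of_surjective (0 : (Fin 0 → ℚ) →ₗ[ℚ] _) fun x => ⟨0, Subsingleton.elim _ _⟩
  · have h3 : (Function.support fun n =>
        Module.finrank ℚ (Hn (M.H m) n (onHK (M.D.tw j) (M.D.W X)))) = ∅ := by
      rw [Function.support_eq_empty_iff]
      funext n
      exact h2 n
    rw [h3]
    exact Set.finite_empty
  · change ∑ᶠ n : ℤ, ((n.negOnePow : ℤˣ) : ℤ) *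
      (Module.finrank ℚ (Hn (M.H m) n (onHK (M.D.tw j) (M.D.W X))) : ℤ) = 0
    rw [finsum_eq_zero_of_forall_eq_zero]
    intro n
    rw [h2 n, Nat.cast_zero, mul_zero]

variable (hM : Known M)

include hM

lemma zero_point {m : ℕ} {j : ℤ} (hm : 1 ≤ m) (hjm : 2 * j < m) : ZeroDim (M.H m) M.D j 0 := by
  rcases le_or_gt j 0 with h1 | h1
  · exact fun X hX _ => hM.low m _ hm h1 X hX
  · exact hM.points m _ (by omega) hjm

omit hM in
lemma dim_pt : topologicalKrullDim (aff ℚ ℚ).left ≤ (0 : ℕ) := by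
  rw [Pool.Agent.Z125.UN.topDim_aff, ringKrullDim_eq_zero_of_field]
  exact le_rfl

lemma space {m : ℕ} {j : ℤ} (hj : 1 ≤ j) (hjm : 2 * j < m) (r : ℕ) :
    Q M m j (aff ℚ (MvPolynomial (Fin r) ℚ)) 0 :=
  spaceT_one (tOne _) hM.weight
    (exact_dim hM.weight (zero_point hM (by omega) (by omega)) _ (ft_aff True) dim_pt)

lemma acy_pt {m : ℕ} {j : ℤ} (hj : 1 ≤ j) (hjm : 2 * j < m) (r : ℕ) :
    Exact M m (j - r) (aff ℚ ℚ) :=
  acy_dim hM.weight (zero_point hM (by omega) (by omega)) _ (ft_aff True) dim_pt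

/-- The two complexes. -/
theorem exact_iff {m : ℕ} {j : ℤ} (hj : 1 ≤ j) (hjm : 2 * j < m) {N : ℕ}
    (F : MvPolynomial (Fin N) ℚ) : Exact M m (j + 1) (dbl F) ↔ Exact M m j (hyper F) :=
  Pool.Agent.Helper7.UT.dbl_hyper (Pool.Agent.Helper7.UT.th_acy (M.H m)) hM.weight
    (acy_pt hM hj hjm N) F

theorem chi_iff {m : ℕ} {j : ℤ} (hj : 1 ≤ j) (hjm : 2 * j < m) {N : ℕ}
    (F : MvPolynomial (Fin N) ℚ) (c : ℤ) : Q M m (j + 1) (dbl F) c ↔ Q M m j (hyper F) c :=
  Pool.Agent.Helper7.UT.dblQ hM.weight (tOne (M.H m)) (space hM hj hjm N) F c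

theorem open_iff {m : ℕ} {j : ℤ} (hj : 1 ≤ j) (hjm : 2 * j < m) {N : ℕ}
    (F : MvPolynomial (Fin N) ℚ) (c : ℤ) : Q M m (j + 1) (dbl F) c ↔
      Q M m j (Pool.Agent.Helper24.KE.U F) (-c) :=
  (chi_iff hM hj hjm F c).trans
    (Pool.Agent.Helper7.UT.hyperQ hM.weight (tOne (M.H m)) (space hM hj hjm N) F c)

lemma to_Z {R R' : ℤ → ℤ} (hR : ∀ c, R' (-c) = R c) {m : ℕ} {j : ℤ} (hj : 1 ≤ j)
    (hjm : 2 * j < m) {r κ : ℕ} (h : Bound M R m j r κ) : BoundZ (Q M m j) R' r κ := by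
  intro ε hε
  obtain ⟨B, hB⟩ := h ε hε
  refine ⟨B, fun F => ⟨_, (open_iff hM hj hjm (rat F) _).mp
    ((Q_iff m (j + 1) _ _).mpr ⟨(hB F).1, rfl⟩), ?_⟩⟩
  rw [hR]
  exact (hB F).2

/-- From the vanishing in dimension `d` to the exactness. -/
theorem to_exact {m : ℕ} {j : ℤ} (hj : 1 ≤ j) (hjm : 2 * j < m) {d : ℕ}
    (h : ZeroDim (M.H m) M.D j d) (F : MvPolynomial (Fin (d + 1)) ℚ) :
    Exact M m (j + 1) (dbl F) :=
  (exact_iff hM hj hjm F).mpr (Pool.Agent.Helper7.UT.to_hyper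
    (Pool.Agent.Helper7.UT.th_acy (M.H m)) hM.weight (acy_pt hM hj hjm (d + 1))
    (fun X hX hd => acy_dim hM.weight h X hX hd) F)

omit hM in
/-- From the exactness to the bounds. -/
theorem exact_bound {m : ℕ} {j : ℤ} {r : ℕ}
    (h : ∀ F : MvPolynomial (Fin r) ℚ, Exact M m (j + 1) (dbl F)) {R : ℤ → ℤ} (hR : R 0 = 0)
    (κ : ℕ) : Bound M R m j r κ := by
  intro ε hε
  refine ⟨0, fun F => ?_⟩
  obtain ⟨h1, h2⟩ := (Q_iff m (j + 1) _ _).mp (q_of_exact (h (rat F)))
  refine ⟨h1, ?_⟩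
  rw [h2, hR, Int.cast_zero, add_zero]
  have h3 : 0 ≤ size F := by
    refine add_nonneg (Nat.cast_nonneg _) (div_nonneg (Real.log_natCast_nonneg _) ?_)
    exact Real.log_nonneg (by linarith [Real.log_natCast_nonneg (norm F)])
  positivity

/-- The condition of bounds. -/
theorem of_bounds {m : ℕ} {j : ℤ} (hj : 1 ≤ j) (hjm : 2 * j < m) {d κ : ℕ} (hκ : 1 ≤ κ)
    (h : Bound M abs m j (d + κ) κ ∨ ∃ R : ℤ → ℤ, (R = id ∨ R = Neg.neg) ∧
      Bound M R m j (d + κ) κ ∧ Bound M R m j (d + κ + 1) κ) : ZeroDim (M.H m) M.D j d := by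
  intro X hX hd
  refine zero_of hM.weight hX ?_
  rcases h with h | ⟨R, hR, h, h'⟩
  · exact main_abs (dfc hM.weight m j) (space hM hj hjm) hκ
      (to_Z hM (fun c => abs_neg c) hj hjm h) X (ft_projective hX) hd
  · rcases hR with rfl | rfl
    · exact main_one (dfc hM.weight m j) (space hM hj hjm) hκ (Or.inr rfl)
        (to_Z hM (fun c => neg_neg c) hj hjm h) (to_Z hM (fun c => neg_neg c) hj hjm h') X
        (ft_projective hX) hd
    · exact main_one (dfc hM.weight m j) (space hM hj hjm) hκ (Or.inl rfl)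
        (to_Z hM (fun c => rfl) hj hjm h) (to_Z hM (fun c => rfl) hj hjm h') X
        (ft_projective hX) hd

theorem of_all {m : ℕ} {j : ℤ} (hj : 1 ≤ j) (hjm : 2 * j < m) {R : ℤ → ℤ}
    (hR : R = id ∨ R = Neg.neg)
    (h : ∀ s : ℕ, ∃ r₀ : ℕ, ∀ r, r₀ ≤ r → Bound M R m j r (r - s)) (d : ℕ) :
    ZeroDim (M.H m) M.D j d := by
  intro X hX _
  refine zero_of hM.weight hX ?_
  rcases hR with rfl | rfl
  · exact main_all (dfc hM.weight m j) (space hM hj hjm) (Or.inr rfl) (fun s => by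
      obtain ⟨r₀, hr⟩ := h s
      exact ⟨r₀, fun r h1 => to_Z hM (fun c => neg_neg c) hj hjm (hr r h1)⟩) X (ft_projective hX)
  · exact main_all (dfc hM.weight m j) (space hM hj hjm) (Or.inl rfl) (fun s => by
      obtain ⟨r₀, hr⟩ := h s
      exact ⟨r₀, fun r h1 => to_Z hM (fun c => rfl) hj hjm (hr r h1)⟩) X (ft_projective hX)

/-- Adding variables. -/
theorem exact_all {m : ℕ} {j : ℤ} (hj : 1 ≤ j) (hjm : 2 * j < m)
    (h : ∀ d, ZeroDim (M.H m) M.D j d) {N : ℕ} (F : MvPolynomial (Fin N) ℚ) :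
    Exact M m (j + 1) (dbl F) := by
  obtain ⟨N', hN⟩ := Pool.Agent.Helper24.KZ.exists_dim_aff (k := ℚ)
    (MvPolynomial (Fin N) ℚ ⧸ Ideal.span {F})
  exact (exact_iff hM hj hjm F).mpr (acy_dim hM.weight (h N') _ (ft_aff True) hN)

omit hM

/-- **The Beilinson–Soulé vanishing for complex varieties and unions of two affine spaces.** See the
explanations above. -/
theorem result (M : Mot.{v, u}) (hM : Known M) :
    -- (1) geometry
    (∀ (N : ℕ) (f : MvPolynomial (Fin N) ℚ), IsTwoSpaces (N + 1) (dbl f)) ∧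
    -- (2) the hypersurface `f = 0`
    (∀ (n : ℕ) (j : ℤ), 1 ≤ j → 2 * j < n → ∀ (N : ℕ) (f : MvPolynomial (Fin N) ℚ),
      (Exact M n (j + 1) (dbl f) ↔ Exact M n j (hyper f)) ∧
      ∀ c : ℤ, (HasChi (M.H n) M.D (j + 1) (dbl f) ∧ euler (M.H n) M.D (j + 1) (dbl f) = c) ↔
        (HasChi (M.H n) M.D j (hyper f) ∧ euler (M.H n) M.D j (hyper f) = c)) ∧
    -- (3) one dimension
    (∀ (d : ℕ) (J : ℤ), List.TFAE [VanUpTo M d J,
      Each J fun n j => ∀ F : MvPolynomial (Fin (d + 1)) ℚ, Exact M n (j + 1) (dbl F),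
      Each J fun n j => Bound M abs n j (d + 1) 1,
      Each J fun n j => ∃ κ : ℕ, 1 ≤ κ ∧ (Bound M abs n j (d + κ) κ ∨
        ∃ R : ℤ → ℤ, (R = id ∨ R = Neg.neg) ∧ Bound M R n j (d + κ) κ ∧
          Bound M R n j (d + κ + 1) κ)]) ∧
    -- (4) complex varieties
    ∀ (J : ℤ) (R : ℤ → ℤ), (R = id ∨ R = Neg.neg) → List.TFAE [CpxUpTo M J,
      Each J fun n j => ∀ (N : ℕ) (F : MvPolynomial (Fin N) ℚ), Exact M n (j + 1) (dbl F),
      Each J fun n j => ∀ s : ℕ, ∃ r₀ : ℕ, ∀ r, r₀ ≤ r → Bound M R n j r (r - s)] := by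
  refine ⟨fun N f => two_spaces f, fun n j hj hjn N f => ⟨exact_iff hM hj hjn f, fun c => ?_⟩,
    fun d J => ?_, fun J R hR => ?_⟩
  · rw [← Q_iff, ← Q_iff]
    exact chi_iff hM hj hjn f c
  · tfae_have 1 → 2 := fun h n j hj hjJ hjn F =>
      to_exact hM hj hjn ((hM.fields d J).mp h n j hj hjJ hjn) F
    tfae_have 2 → 3 := fun h n j hj hjJ hjn => exact_bound (h n j hj hjJ hjn) abs_zero 1
    tfae_have 3 → 4 := fun h n j hj hjJ hjn => ⟨1, le_rfl, Or.inl (h n j hj hjJ hjn)⟩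
    tfae_have 4 → 1 := fun h => (hM.fields d J).mpr fun n j hj hjJ hjn => by
      obtain ⟨κ, hκ, h1⟩ := h n j hj hjJ hjn
      exact of_bounds hM hj hjn hκ h1
    tfae_finish
  · tfae_have 1 → 2 := fun h n j hj hjJ hjn N F =>
      exact_all hM hj hjn (fun d => (hM.fields d J).mp ((hM.complex J).mp h d) n j hj hjJ hjn) F
    tfae_have 2 → 3 := fun h n j hj hjJ hjn s => ⟨0, fun r _ =>
      exact_bound (h n j hj hjJ hjn r) (by rcases hR with rfl | rfl <;> simp) _⟩
    tfae_have 3 → 1 := fun h => (hM.complex J).mpr fun d => (hM.fields d J).mpr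
      fun n j hj hjJ hjn => of_all hM hj hjn hR (h n j hj hjJ hjn) d
    tfae_finish

end Pool.Agent.Results.MP_d72c81_ag.UnionsOfTwoAffineSpaces
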